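import Pool.Agent.H59.L.S8.Y506.PV.Stm

/-!
# Project PV: removing a concave density
-/

set_option autoImplicit false

namespace Pool.Agent.Y279.PV

open MeasureTheory Set Filter Topology
open scoped ENNReal InnerProductSpace
open Pool.Agent.W695.KH (Eu EU EV VV Sm Pot Uu)
open Pool.Agent.Y506.RG
open Pool.Agent.Y506.PV

variable {n : ℕ}

/-- the variance is the second moment about the mean -/
lemma VW_eq {w : Eu (Fin n) → ℝ} (h : Adm w) (v : Eu (Fin n) → ℝ)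
    (h1 : Integrable fun x => v x * w x) (h2 : Integrable fun x => v x ^ 2 * w x) :
    VW w v = EW w (fun x => (v x - EW w v) ^ 2) := by
  rw [VW_shift h v h1 h2]
  ring

lemma VW_le {w : Eu (Fin n) → ℝ} (h : Adm w) (v : Eu (Fin n) → ℝ)
    (h1 : Integrable fun x => v x * w x) (h2 : Integrable fun x => v x ^ 2 * w x) (a : ℝ) :
    VW w v ≤ EW w (fun x => (v x - a) ^ 2) := by
  rw [VW_shift h v h1 h2]
  nlinarith [sq_nonneg (EW w v - a)]

/-- change of the weight -/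
lemma EW_mul {w u : Eu (Fin n) → ℝ} (hw : Adm w) (huw : Adm fun x => u x * w x)
    (F : Eu (Fin n) → ℝ) :
    EW (fun x => u x * w x) F * EW w u = EW w (fun x => F x * u x) := by
  unfold EW
  have h1 := huw.pos.ne'
  have h2 := hw.pos.ne'
  have h3 : ∫ x, F x * (u x * w x) = ∫ x, F x * u x * w x := by
    congr 1
    funext x
    ring
  rw [h3]
  field_simp

/-- linear functionals -/
lemma lin_bd (θ : Eu (Fin n)) (x : Eu (Fin n)) : |⟪x, θ⟫_ℝ| ≤ ‖θ‖ * (1 + ‖x‖ ^ 2) := by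
  have h1 := abs_real_inner_le_norm x θ
  nlinarith [norm_nonneg x, norm_nonneg θ, sq_nonneg (‖x‖ - 1)]

lemma lin_sq_bd (θ : Eu (Fin n)) (a : ℝ) (x : Eu (Fin n)) :
    |(⟪x, θ⟫_ℝ - a) ^ 2| ≤ (2 * ‖θ‖ ^ 2 + 2 * a ^ 2) * (1 + ‖x‖ ^ 2) := by
  rw [abs_of_nonneg (sq_nonneg _)]
  have h1 := abs_real_inner_le_norm x θ
  have h2 : ⟪x, θ⟫_ℝ ^ 2 ≤ ‖x‖ ^ 2 * ‖θ‖ ^ 2 := by
    rw [← mul_pow, ← sq_abs]
    exact pow_le_pow_left₀ (abs_nonneg _) h1 2
  nlinarith [sq_nonneg (⟪x, θ⟫_ℝ + a), sq_nonneg ‖θ‖, sq_nonneg ‖x‖, sq_nonneg a,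
    mul_nonneg (sq_nonneg a) (sq_nonneg ‖x‖)]

lemma lin_meas (θ : Eu (Fin n)) : Measurable fun x : Eu (Fin n) => ⟪x, θ⟫_ℝ := by
  fun_prop

/-- the variances of linear functionals for the new weight -/
lemma var_le {w u : Eu (Fin n) → ℝ} (hw : Adm w) (hum : Measurable u) (hu0 : ∀ x, 0 ≤ u x)
    (huw : Adm fun x => u x * w x) {τ s C : ℝ} (hτ : 0 < τ) (hs : 0 < s)
    (hi2 : Integrable fun x => u x ^ 2 * w x) (h1 : τ / 2 ≤ EW w u)
    (h2 : EW w (fun x => u x ^ 2) ≤ 3 * τ ^ 2) (θ : Eu (Fin n)) (hC : 1 ≤ C)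
    (hi4 : Integrable (fun x => (⟪x, θ⟫_ℝ - EW w fun x => ⟪x, θ⟫_ℝ) ^ 4 * w x))
    (h4 : EW w (fun x => (⟪x, θ⟫_ℝ - EW w fun x => ⟪x, θ⟫_ℝ) ^ 4) ≤
      C * (VW w fun x => ⟪x, θ⟫_ℝ) ^ 2) (hV : VW w (fun x => ⟪x, θ⟫_ℝ) ≤ s) :
    VW (fun x => u x * w x) (fun x => ⟪x, θ⟫_ℝ) ≤ (3 + C) * s := by
  obtain ⟨a, ha⟩ : ∃ a : ℝ, a = EW w fun x => ⟪x, θ⟫_ℝ := ⟨_, rfl⟩
  rw [← ha] at hi4 h4
  have il : Integrable fun x => ⟪x, θ⟫_ℝ * w x := hw.of_bd _ (lin_meas θ) _ (lin_bd θ)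
  have il2 : Integrable fun x => ⟪x, θ⟫_ℝ ^ 2 * w x := by
    refine hw.of_bd _ ((lin_meas θ).pow_const 2) (2 * ‖θ‖ ^ 2 + 2 * 0 ^ 2) fun x => ?_
    have := lin_sq_bd θ 0 x
    rwa [sub_zero] at this
  have jl : Integrable fun x => ⟪x, θ⟫_ℝ * (u x * w x) := huw.of_bd _ (lin_meas θ) _ (lin_bd θ)
  have jl2 : Integrable fun x => ⟪x, θ⟫_ℝ ^ 2 * (u x * w x) := by
    refine huw.of_bd _ ((lin_meas θ).pow_const 2) (2 * ‖θ‖ ^ 2 + 2 * 0 ^ 2) fun x => ?_
    have := lin_sq_bd θ 0 x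
    rwa [sub_zero] at this
  have jla : Integrable fun x => (⟪x, θ⟫_ℝ - a) ^ 2 * u x * w x := by
    have := huw.of_bd _ (((lin_meas θ).sub_const a).pow_const 2) _ (lin_sq_bd θ a)
    refine this.congr (Eventually.of_forall fun x => ?_)
    simp only
    ring
  have hV0 : 0 ≤ VW w fun x => ⟪x, θ⟫_ℝ := by
    rw [VW_eq hw _ il il2]
    exact EW_nonneg hw _ fun x => sq_nonneg _
  have hE0 : 0 < EW w u := by linarith
  have k1 : EW w (fun x => (⟪x, θ⟫_ℝ - a) ^ 2 * u x) ≤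
      EW w (fun x => s / (2 * τ) * u x ^ 2 + τ / (2 * s) * (⟪x, θ⟫_ℝ - a) ^ 4) := by
    refine EW_mono hw _ _ jla ?_ fun x => ?_
    · refine ((hi2.const_mul (s / (2 * τ))).add (hi4.const_mul (τ / (2 * s)))).congr
        (Eventually.of_forall fun x => ?_)
      simp only [Pi.add_apply]
      ring
    · have e1 : s / (2 * τ) * u x ^ 2 + τ / (2 * s) * (⟪x, θ⟫_ℝ - a) ^ 4 -
          (⟪x, θ⟫_ℝ - a) ^ 2 * u x =
          1 / (2 * s * τ) * (s * u x - τ * (⟪x, θ⟫_ℝ - a) ^ 2) ^ 2 := by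
        field_simp
        ring
      have e2 : 0 ≤ 1 / (2 * s * τ) * (s * u x - τ * (⟪x, θ⟫_ℝ - a) ^ 2) ^ 2 := by positivity
      linarith
  have k2 : EW w (fun x => s / (2 * τ) * u x ^ 2 + τ / (2 * s) * (⟪x, θ⟫_ℝ - a) ^ 4) =
      s / (2 * τ) * EW w (fun x => u x ^ 2) +
        τ / (2 * s) * EW w (fun x => (⟪x, θ⟫_ℝ - a) ^ 4) := by
    rw [EW_add, EW_const_mul, EW_const_mul]
    · refine (hi2.const_mul (s / (2 * τ))).congr (Eventually.of_forall fun x => ?_)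
      simp only
      ring
    · refine (hi4.const_mul (τ / (2 * s))).congr (Eventually.of_forall fun x => ?_)
      simp only
      ring
  have k3 : s / (2 * τ) * EW w (fun x => u x ^ 2) ≤ 3 / 2 * (s * τ) := by
    calc s / (2 * τ) * EW w (fun x => u x ^ 2) ≤ s / (2 * τ) * (3 * τ ^ 2) :=
          mul_le_mul_of_nonneg_left h2 (by positivity)
      _ = 3 / 2 * (s * τ) := by field_simp
  have k4 : τ / (2 * s) * EW w (fun x => (⟪x, θ⟫_ℝ - a) ^ 4) ≤ C / 2 * (s * τ) := by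
    calc τ / (2 * s) * EW w (fun x => (⟪x, θ⟫_ℝ - a) ^ 4) ≤
          τ / (2 * s) * (C * s ^ 2) := by
          refine mul_le_mul_of_nonneg_left (h4.trans ?_) (by positivity)
          exact mul_le_mul_of_nonneg_left (pow_le_pow_left₀ hV0 hV 2) (by linarith)
      _ = C / 2 * (s * τ) := by field_simp
  have k5 : EW (fun x => u x * w x) (fun x => (⟪x, θ⟫_ℝ - a) ^ 2) * EW w u ≤
      (3 + C) * s * EW w u := by
    rw [EW_mul hw huw]
    have k6 : (3 + C) * s * (τ / 2) ≤ (3 + C) * s * EW w u :=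
      mul_le_mul_of_nonneg_left h1 (by positivity)
    rw [k2] at k1
    linarith
  exact (VW_le huw _ jl jl2 a).trans (le_of_mul_le_mul_right k5 hE0)

theorem den (h1 : S_M4) (h2 : S_UM) : S_DEN := by
  obtain ⟨C, hC, hM4⟩ := h1
  intro δ hδ
  refine ⟨δ * (δ / 8) / 4, 1 / Real.sqrt (3 + C), by positivity, by positivity, ?_⟩
  intro n κ w u hκ hw hlc hum hu0 hcon huw hcc
  have hiu : Integrable fun x => u x * w x := huw.one
  obtain ⟨τ, hτ, hsm, hub, hlb, hi2, hu2⟩ := h2 n w u hw hlc hum hu0 hcon hiu huw.pos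
  intro k hk T s hs hT v hv hv1 hvd
  have hTc : Continuous T := T.continuous_of_finiteDimensional
  have hvc : Continuous v := hv.continuous
  have hvm : Measurable fun x => v (T x) := (hvc.comp hTc).measurable
  have hC3 : 0 < 3 + C := by linarith
  -- the new weight
  have key : VW (fun x => u x * w x) (fun x => v (T x)) ≤ δ * (δ / 8) / 4 := by
    refine hcc k hk T ((3 + C) * s) (by positivity) ?_ v hv hv1 ?_
    · intro θ hθ
      have e1 : (fun x => ⟪T x, θ⟫_ℝ) = fun x => ⟪x, LinearMap.adjoint T θ⟫_ℝ := by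
        funext x
        rw [LinearMap.adjoint_inner_right]
      have h3 := hT θ hθ
      rw [e1] at h3 ⊢
      obtain ⟨hi4, h4⟩ := hM4 n w hw hlc (LinearMap.adjoint T θ)
      exact var_le hw hum hu0 huw hτ hs hi2 hlb hu2 _ hC hi4 h4 h3
    · intro y
      refine (hvd y).trans (le_of_eq ?_)
      rw [Real.sqrt_mul hC3.le]
      have h3 : Real.sqrt (3 + C) ≠ 0 := (Real.sqrt_pos.2 hC3).ne'
      have h4 : Real.sqrt s ≠ 0 := (Real.sqrt_pos.2 hs).ne'
      field_simp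
  obtain ⟨m, hm⟩ : ∃ m : ℝ, m = EW (fun x => u x * w x) (fun x => v (T x)) := ⟨_, rfl⟩
  have hv2 : ∀ x, |v (T x) ^ 2| ≤ 1 := fun x => by
    rw [abs_pow]
    exact pow_le_one₀ (abs_nonneg _) (hv1 _)
  have i1 : Integrable fun x => v (T x) * w x := hw.bdd _ hvm 1 fun x => hv1 _
  have i2 : Integrable fun x => v (T x) ^ 2 * w x := hw.bdd _ (hvm.pow_const 2) 1 hv2
  have j1 : Integrable fun x => v (T x) * (u x * w x) := huw.bdd _ hvm 1 fun x => hv1 _
  have j2 : Integrable fun x => v (T x) ^ 2 * (u x * w x) :=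
    huw.bdd _ (hvm.pow_const 2) 1 hv2
  have hm1 : |m| ≤ 1 := by
    rw [abs_le]
    constructor
    · have h3 := EW_mono huw (fun _ => -1) (fun x => v (T x))
        (huw.bdd _ measurable_const 1 (fun x => by simp)) j1 (fun x => (abs_le.1 (hv1 _)).1)
      rw [EW_const huw] at h3
      rw [hm]
      exact h3
    · have h3 := EW_mono huw (fun x => v (T x)) (fun _ => 1) j1
        (huw.bdd _ measurable_const 1 (fun x => by simp)) (fun x => (abs_le.1 (hv1 _)).2)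
      rw [EW_const huw] at h3
      rw [hm]
      exact h3
  have hd2 : ∀ x, (v (T x) - m) ^ 2 ≤ 4 := by
    intro x
    have h3 := abs_le.1 (hv1 (T x))
    have h4 := abs_le.1 hm1
    nlinarith
  rw [VW_eq huw _ j1 j2, ← hm] at key
  refine (VW_le hw _ i1 i2 m).trans ?_
  -- the estimate
  have e0 : EW w (fun x => (v (T x) - m) ^ 2 * u x) ≤ δ * (δ / 8) / 4 * (2 * τ) := by
    rw [← EW_mul hw huw]
    have h3 : 0 ≤ EW w u := by linarith
    calc EW (fun x => u x * w x) (fun x => (v (T x) - m) ^ 2) * EW w u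
        ≤ δ * (δ / 8) / 4 * EW w u := mul_le_mul_of_nonneg_right key h3
      _ ≤ δ * (δ / 8) / 4 * (2 * τ) := mul_le_mul_of_nonneg_left hub (by positivity)
  have hset : MeasurableSet {x | u x < δ / 8 * τ} := measurableSet_lt hum measurable_const
  have hW := hw.pos
  have hdm : Measurable fun x => (v (T x) - m) ^ 2 := (hvm.sub_const m).pow_const 2
  have q1 : Integrable fun x => (v (T x) - m) ^ 2 * w x :=
    hw.bdd _ hdm 4 fun x => by
      rw [abs_of_nonneg (sq_nonneg _)]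
      exact hd2 x
  have q2 : Integrable fun x => (v (T x) - m) ^ 2 * u x * w x := by
    have := huw.bdd _ hdm 4 fun x => by
      rw [abs_of_nonneg (sq_nonneg _)]
      exact hd2 x
    refine this.congr (Eventually.of_forall fun x => ?_)
    simp only
    ring
  have q3 : Integrable ({x | u x < δ / 8 * τ}.indicator w) := hw.one.indicator hset
  have e1 : ∫ x, (v (T x) - m) ^ 2 * w x ≤
      ∫ x, (4 * {x | u x < δ / 8 * τ}.indicator w x +
        1 / (δ / 8 * τ) * ((v (T x) - m) ^ 2 * u x * w x)) := by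
    refine integral_mono q1 ((q3.const_mul 4).add (q2.const_mul _)) fun x => ?_
    simp only
    have h3 := hw.nonneg x
    have h4 := hd2 x
    have h5 := sq_nonneg (v (T x) - m)
    by_cases hx : u x < δ / 8 * τ
    · rw [indicator_of_mem (show x ∈ {x | u x < δ / 8 * τ} from hx)]
      have h6 : 0 ≤ 1 / (δ / 8 * τ) * ((v (T x) - m) ^ 2 * u x * w x) := by
        have := hu0 x
        positivity
      nlinarith
    · rw [indicator_of_notMem (show x ∉ {x | u x < δ / 8 * τ} from hx)]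
      rw [not_lt] at hx
      have h6 : (v (T x) - m) ^ 2 * w x ≤
          1 / (δ / 8 * τ) * ((v (T x) - m) ^ 2 * u x * w x) := by
        rw [one_div, ← div_eq_inv_mul, le_div_iff₀ (by positivity)]
        have h7 : (v (T x) - m) ^ 2 * w x * (δ / 8 * τ) ≤ (v (T x) - m) ^ 2 * w x * u x :=
          mul_le_mul_of_nonneg_left hx (by positivity)
        linarith
      linarith
  rw [integral_add (q3.const_mul 4) (q2.const_mul _), integral_const_mul, integral_const_mul,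
    integral_indicator hset] at e1
  have e2 := hsm (δ / 8) (by positivity)
  have e3 : ∫ x, (v (T x) - m) ^ 2 * u x * w x ≤ δ * (δ / 8) / 4 * (2 * τ) * ∫ x, w x := by
    unfold EW at e0
    rwa [div_le_iff₀ hW] at e0
  unfold EW
  rw [div_le_iff₀ hW]
  have e4 : 1 / (δ / 8 * τ) * ∫ x, (v (T x) - m) ^ 2 * u x * w x ≤
      1 / (δ / 8 * τ) * (δ * (δ / 8) / 4 * (2 * τ) * ∫ x, w x) :=
    mul_le_mul_of_nonneg_left e3 (by positivity)
  have e5 : 1 / (δ / 8 * τ) * (δ * (δ / 8) / 4 * (2 * τ) * ∫ x, w x) = δ / 2 * ∫ x, w x := by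
    field_simp
    ring
  rw [e5] at e4
  linarith

end Pool.Agent.Y279.PV
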